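import Pool.Agent.N190.FE.Mom
import Pool.Agent.X310.Odd

/-!
# Fibrations over a curve
-/

open CategoryTheory AlgebraicGeometry Finset

set_option linter.unusedSectionVars false

universe u v

namespace Pool.Agent.N190.FE

open Pool.Agent.H914 Pool.Agent.H447 Pool.Agent.W498.Dom Pool.Agent.W534

section Dbl

variable {K : Type*} [Field K] [CharZero K] {V : Type*} [AddCommGroup V] [Module K V]
  {gr P : ℕ → Submodule K V} {m : ℕ} {h e : Module.End K V}

/-- A family of subspaces placed in the even degrees. -/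
def dbl (Z : ℕ → Submodule K V) (j : ℕ) : Submodule K V := if Even j then Z (j / 2) else ⊥

lemma dbl_two (Z : ℕ → Submodule K V) (q : ℕ) : dbl Z (2 * q) = Z q := by
  rw [dbl, if_pos (even_two_mul q), Nat.mul_div_cancel_left q two_pos]

lemma dbl_odd (Z : ℕ → Submodule K V) {j : ℕ} (hj : ¬ Even j) : dbl Z j = ⊥ := by
  rw [dbl, if_neg hj]

lemma sub_dbl {Z : ℕ → Submodule K V} {d : ℕ} (hle : ∀ q, Z q ≤ gr (2 * q))
    (hh : ∀ q, ∀ v ∈ Z q, h v ∈ Z (q + 1)) (he : ∀ q, ∀ v ∈ Z q, e v ∈ Z (q + 1))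
    (hr : ∀ p q, p + q = m → p ≤ q → p ≤ d →
      Module.finrank K (Z q) ≤ Module.finrank K (Z p)) :
    Sub gr m h e (dbl Z) (m - 2 * d) := by
  have step : ∀ (g : Module.End K V), (∀ q, ∀ v ∈ Z q, g v ∈ Z (q + 1)) → ∀ j, ∀ v ∈ dbl Z j,
      g v ∈ dbl Z (j + 2) := by
    intro g hg j v hv
    by_cases hj : Even j
    · obtain ⟨q, rfl⟩ := hj.two_dvd
      rw [dbl_two] at hv
      rw [show 2 * q + 2 = 2 * (q + 1) by ring, dbl_two]
      exact hg q v hv
    · rw [dbl_odd Z hj] at hv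
      rw [(Submodule.mem_bot _).1 hv, map_zero]
      exact Submodule.zero_mem _
  refine ⟨?_, step h hh, step e he, ?_⟩
  · intro j
    by_cases hj : Even j
    · obtain ⟨q, rfl⟩ := hj.two_dvd
      rw [dbl_two]
      exact hle q
    · rw [dbl_odd Z hj]; exact bot_le
  · intro c hc₀ hc
    by_cases hj : Even (m + c)
    · have hj' : Even (m - c) := by
        rw [Nat.even_sub hc]
        exact Nat.even_add.1 hj
      obtain ⟨q, hq⟩ := hj.two_dvd
      obtain ⟨p, hp⟩ := hj'.two_dvd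
      rw [hq, hp, dbl_two, dbl_two]
      exact hr p q (by omega) (by omega) (by omega)
    · rw [dbl_odd Z hj, finrank_bot]
      exact Nat.zero_le _

end Dbl

section Curve

variable {K : Type*} [Field K] [CharZero K] {V : Type*} [AddCommGroup V] [Module K V]
  {gr P : ℕ → Submodule K V} {m : ℕ} {h e : Module.End K V} (S : Setup gr P m h e) {b : ℕ}
  (hb : h ^ (b + 1) = 0)

include S hb

lemma h_pow_zero {c : ℕ} (hc : b + 1 ≤ c) (x : V) : (h ^ c) x = 0 := by
  obtain ⟨d, rfl⟩ := Nat.exists_eq_add_of_le hc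
  rw [add_comm, pow_add, hb, mul_zero, LinearMap.zero_apply]

/-- If `h ^ (b + 1) = 0` the pieces are concentrated in few degrees: below. -/
lemma piece_lt {p j : ℕ} (hj : j + (b + 1) ≤ p) : P p ⊓ gr j = ⊥ := by
  rw [eq_bot_iff]
  intro x hx
  exact (Submodule.mem_bot _).2
    ((S.hl p j (by omega)).1 x hx (h_pow_zero S hb (by omega) x))

/-- If `h ^ (b + 1) = 0` the pieces are concentrated in few degrees: above. -/
lemma piece_gt {p j : ℕ} (hj : p + (b + 1) ≤ j) : P p ⊓ gr j = ⊥ := by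
  by_cases hjp : 2 * p < j
  · exact S.van p j hjp
  rw [eq_bot_iff]
  intro x hx
  obtain ⟨a, -, hax⟩ := (S.hl p (2 * p - j) (by omega)).2 x (by
    rw [show 2 * p - (2 * p - j) = j by omega]; exact hx)
  rw [h_pow_zero S hb (by omega)] at hax
  exact (Submodule.mem_bot _).2 hax.symm

/-- The operator `h ^ b` sees only the highest piece. -/
lemma h_zero {j : ℕ} {x : V} (hx : x ∈ gr j) (h0 : proj S.iP (j + b) x = 0) :
    (h ^ b) x = 0 := by
  rw [S.sumP x, map_sum]
  apply Finset.sum_eq_zero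
  intro p _
  rcases Nat.lt_trichotomy p (j + b) with hp | hp | hp
  · have h3 : (h ^ b) (proj S.iP p x) ∈ P p ⊓ gr (j + 2 * b) := by
      refine ⟨?_, ?_⟩
      · rw [S.pow_h_projP]; exact proj_mem S.iP p _
      · exact pow_L_mem S.hgr (S.projP_gr hx p) b
    rw [piece_gt S hb (by omega)] at h3
    exact (Submodule.mem_bot _).1 h3
  · rw [hp, h0, map_zero]
  · have h3 : proj S.iP p x ∈ P p ⊓ gr j := ⟨proj_mem S.iP p x, S.projP_gr hx p⟩
    rw [piece_lt S hb (by omega)] at h3
    rw [(Submodule.mem_bot _).1 h3, map_zero]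

/-- **The conjecture A modulo the kernel of the class of a fibre.** -/
theorem curve_surj [Module.Finite K V] {Z : ℕ → Submodule K V} {d : ℕ}
    (hle : ∀ q, Z q ≤ gr (2 * q))
    (hh : ∀ q, ∀ v ∈ Z q, h v ∈ Z (q + 1)) (he : ∀ q, ∀ v ∈ Z q, e v ∈ Z (q + 1))
    (hr : ∀ p q, p + q = m → p ≤ q → p ≤ d →
      Module.finrank K (Z q) ≤ Module.finrank K (Z p)) {p q : ℕ}
    (hpq : p + q + b = m) (hle' : p ≤ q) (hpd : p ≤ d) {w : V} (hw : w ∈ Z q) :
    ∃ a ∈ Z p, (h ^ b) (w - (e ^ (q - p)) a) = 0 := by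
  have SA := sub_dbl hle hh he hr
  have hwg : w ∈ gr (2 * q) := hle q hw
  have hwb : w ∈ below P (m + (q - p) + 1) := by
    rw [below_iff S]
    intro r hr
    have h3 : proj S.iP r w ∈ P r ⊓ gr (2 * q) := ⟨proj_mem S.iP r w, S.projP_gr hwg r⟩
    rw [piece_lt S hb (by omega)] at h3
    exact (Submodule.mem_bot _).1 h3
  obtain ⟨x, hx, -, hxw⟩ := lead_top_surj S SA (s := q - p) (d := b) (by omega) (by omega)
    (by omega) (y := w)
    (by rw [show m + (q - p) - b = 2 * q by omega, dbl_two]; exact hw) hwb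
  rw [show m - (q - p) - b = 2 * p by omega, dbl_two] at hx
  refine ⟨x, hx, ?_⟩
  apply h_zero S hb (j := 2 * q)
  · apply Submodule.sub_mem _ hwg
    have h3 := SA.e_pow (j := 2 * p) (v := x) (by rw [dbl_two]; exact hx) (q - p)
    have h4 := SA.le _ h3
    rwa [show 2 * p + 2 * (q - p) = 2 * q by omega] at h4
  · rw [show 2 * q + b = m + (q - p) by omega, map_sub, hxw, sub_self]

end Curve

section Image

variable {K : Type*} [Field K] [CharZero K] {V : Type*} [AddCommGroup V] [Module K V]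
  {U : Type*} [AddCommGroup U] [Module K U] {gr P : ℕ → Submodule K V}
  {grU : ℕ → Submodule K U} {n r : ℕ} {h e : Module.End K V} {hU : Module.End K U}
  {φ : U →ₗ[K] V} {ψ : V →ₗ[K] U} {δ : K} (S : Setup gr P (n + r) h e)
  (M : MapSetup gr P grU n r h e hU φ ψ δ)

include S M

/-- `ψ e ^ r` of a vector of level at most `n` depends only on its component in `P n`. -/
lemma psi_proj {v : V} (hv : v ∈ below P (n + 1)) :
    ψ ((e ^ r) v) = ψ ((e ^ r) (proj S.iP n v)) := by
  rw [← sub_eq_zero, ← map_sub, ← map_sub, S.sumP (v - proj S.iP n v), map_sum, map_sum]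
  apply Finset.sum_eq_zero
  intro p _
  rcases Nat.lt_trichotomy p n with hp | hp | hp
  · exact MapSetup.psi_low S M hp (proj_mem S.iP p _)
  · rw [hp, map_sub, proj_same S.iP (proj_mem S.iP n v), sub_self, map_zero, map_zero]
  · rw [map_sub, (below_iff S).1 hv p (by omega), proj_ne S.iP (proj_mem S.iP n v) (by omega),
      sub_zero, map_zero, map_zero]

/-- **Descent under a dominant morphism.** -/
theorem image_surj [Module.Finite K V] {A : ℕ → Submodule K V} {c₀ : ℕ}
    (SA : Sub gr (n + r) h e A c₀) {c : ℕ} (hc : c ≤ n) (hc₀ : c₀ ≤ r + c) {β : U}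
    (hβ : φ β ∈ A (n + c)) :
    ∃ x ∈ A (n - c), ψ ((h ^ c) ((e ^ r) x)) = δ • β := by
  have hb : φ β ∈ below P (n + 1) := by
    rw [below_iff S]
    intro q hq
    exact proj_ne S.iP (M.φP β) (by omega)
  obtain ⟨x, hx, hxb, hxβ⟩ := lead_h_surj S SA (p := n) (by omega) hc (by omega) hβ hb
  refine ⟨x, hx, ?_⟩
  have h1 : Commute h e := S.he
  have h2 := (h1.pow_pow c r).eq
  have hb' : (h ^ c) x ∈ below P (n + 1) := by
    rw [below_iff S]
    intro q hq
    rw [← S.pow_h_projP, (below_iff S).1 hxb q hq, map_zero]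
  rw [← Module.End.mul_apply, h2, Module.End.mul_apply, psi_proj S M hb', hxβ,
    proj_same S.iP (M.φP β), M.ψφ]

end Image

end Pool.Agent.N190.FE
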