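import Pool.Agent.W498.Dom.Defs

/-!
# Models over a smaller field: definitions
-/

open CategoryTheory AlgebraicGeometry

universe u v u' v'

namespace Pool.Agent.N190.FE

open Pool.Agent.H914 VarClass Obj WeilCohomology Pool.Agent.W498.Dom

section Alg

variable {K : Type*} [Field K] {A : Type*} [Ring A] [Algebra K A] {A' : Type*} [Ring A']
  [Algebra K A']

/-- The subspaces `S` and `S'` have the same dimension. -/
def SameRank (S S' : Submodule K A) : Prop := Module.finrank K S = Module.finrank K S'

/-- The pieces `gr i` and `gr' i`, `i ≤ d`, have the same dimensions. -/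
def SameBetti {K' : Type*} [Field K'] [Algebra K' A'] (gr : ℕ → Submodule K A)
    (gr' : ℕ → Submodule K' A') (d : ℕ) : Prop :=
  ∀ i ≤ d, Module.finrank K (gr i) = Module.finrank K' (gr' i)

/-- The element `x` is the product of `h ^ c` and an element of `S`. -/
def IsMultiple (S : Submodule K A) (h : A) (c : ℕ) (x : A) : Prop := ∃ y ∈ S, h ^ c * y = x

/-- The equality `x = h ^ c`. -/
def IsPow {A : Type*} [Ring A] (x h : A) (c : ℕ) : Prop := x = h ^ c

/-- The algebra homomorphism `f` maps `gr j` onto `gr' j` for `j < r`. -/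
def OntoBelow (gr : ℕ → Submodule K A) (gr' : ℕ → Submodule K A') (f : A →ₐ[K] A') (r : ℕ) :
    Prop :=
  ∀ j < r, ∀ b ∈ gr' j, ∃ a ∈ gr j, f a = b

/-- The operator `θ` maps `h ^ (n - i) a` to `a`, for `a` in `gr i`. -/
def LeftInverts (gr : ℕ → Submodule K A) (n i : ℕ) (h : A) (θ : A →ₗ[K] A) : Prop :=
  ∀ a ∈ gr i, θ (h ^ (n - i) * a) = a

/-- The operator `θ` induces the inverse of the map `h ^ (n - i) : gr i → gr (2 n - i)`, and it is
zero on all `gr j` with `j ≠ 2 n - i`. -/
structure IsInverse (gr : ℕ → Submodule K A) (n i : ℕ) (h : A) (θ : A →ₗ[K] A) : Prop where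
  left : LeftInverts gr n i h θ
  right : ∀ b ∈ gr (2 * n - i), h ^ (n - i) * θ b = b
  zero : ∀ j, j ≠ 2 * n - i → ∀ a ∈ gr j, θ a = 0

/-- The map `ρ` from the `K`-algebra `A` to the `K'`-algebra `A'` looks like the restriction to the
geometric generic fibre: it is a ring homomorphism, semilinear for some homomorphism of the
coefficient fields, maps the classes `C p` of the cycles of codimension `p` to the classes `C' p`,
and vanishes on the elements which are killed by the element `t` (the class of a fibre). -/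
structure IsRestriction (K K' : Type*) [Field K] [Field K'] {A A' : Type*} [Ring A] [Algebra K A]
    [Ring A'] [Algebra K' A'] (ρ : A → A') (t : A) (C : ℕ → Set A) (C' : ℕ → Set A') :
    Prop where
  one : ρ 1 = 1
  mul : ∀ x y, ρ (x * y) = ρ x * ρ y
  add : ∀ x y, ρ (x + y) = ρ x + ρ y
  semilinear : ∃ σ : K →+* K', ∀ (c : K) (x : A), ρ (c • x) = σ c • ρ x
  cycles : ∀ p, ∀ x ∈ C p, ρ x ∈ C' p
  ker : ∀ x, t * x = 0 → ρ x = 0

end Alg

variable {k₁ : Type u} [Field k₁] {𝒱₁ : VarClass k₁} {ops₁ : CycleOps 𝒱₁}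
  {k : Type u'} [Field k] {𝒱 : VarClass k} {ops : CycleOps 𝒱}

/-- The cycle `D` on `X` is a divisor which satisfies hard Lefschetz. -/
def Lef (W : WeilCohomology.{u, v} ops₁) (X : 𝒱₁.Obj) (D : X.Cycles) : Prop :=
  X.IsCyc 1 D ∧ HardLefschetz W X D

/-- The classes of the cycles of codimension `p`. -/
def classes (W : WeilCohomology.{u, v} ops₁) (X : 𝒱₁.Obj) (p : ℕ) : Set (W.H X) :=
  {x | ∃ z, X.IsCyc p z ∧ W.cl X z = x}

/-- The span of the classes of the cycles of codimension `p` over the coefficient field. -/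
def Span (W : WeilCohomology.{u, v} ops₁) (X : 𝒱₁.Obj) (p : ℕ) : Submodule W.K (W.H X) :=
  Submodule.span W.K (classes W X p)

/-- A fibration `f : T ⟶ B` of varieties over `k₁` with the decomposition theorem and the relative
hard Lefschetz theorem. -/
structure Fibration (W₁ : WeilCohomology.{u, v} ops₁) where
  /-- the total space -/
  T : 𝒱₁.Obj
  /-- the base -/
  B : 𝒱₁.Obj
  /-- the fibration -/
  f : T ⟶ B
  /-- an ample divisor on the base -/
  H : B.Cycles
  /-- a cycle of dimension zero on the base with the class of the power `dim B` of `H` -/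
  P : B.Cycles
  /-- an ample divisor on the total space -/
  L : T.Cycles
  isCyc_H : B.IsCyc 1 H
  isPow : IsPow (W₁.cl B P) (W₁.cl B H) B.dim
  lef : Lef W₁ T L
  dec : PerverseDecomposition W₁ f H L

/-- The variety `Z` over the extension `k` of `k₁` with the divisor `E` looks like the geometric
generic fibre of the fibration `F` (base changed to `k`) with the restriction of the divisor `L`;
the cycle `f^* P` is a combination of fibres. -/
structure GenericFibre {W₁ : WeilCohomology.{u, v} ops₁} (F : Fibration W₁)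
    (W : WeilCohomology.{u', v'} ops) (Z : 𝒱.Obj) (E : Z.Cycles) where
  dim_eq : F.T.dim = Z.dim + F.B.dim
  /-- the restriction to the geometric generic fibre -/
  ρ : W₁.H F.T → W.H Z
  isRestriction : IsRestriction W₁.K W.K ρ (W₁.cl F.T (ops₁.pull F.f F.P)) (classes W₁ F.T)
    (classes W Z)
  isCyc_E : Z.IsCyc 1 E
  restr_L : ρ (W₁.cl F.T F.L) = W.cl Z E

/-- A model over `k₁` of the variety `Y` over the extension `k` of `k₁`, the divisor `D` on `Y` and
the cycle `z` of codimension `b` on `Y`, after an alteration: a fibration of varieties over `k₁`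
whose geometric generic fibre is a variety `Z` with a dominant morphism `φ` to `Y` (with the
decomposition theorem and relative hard Lefschetz), such that the pull-backs of `D` and `z` to `Z`
extend to cycles on the total space. -/
structure Model (W₁ : WeilCohomology.{u, v} ops₁) (W : WeilCohomology.{u', v'} ops) (Y : 𝒱.Obj)
    (D : Y.Cycles) (b : ℕ) (z : Y.Cycles) where
  /-- the fibration over `k₁` -/
  F : Fibration W₁
  /-- the geometric generic fibre -/
  Z : 𝒱.Obj
  /-- the restriction of `F.L` -/
  E : Z.Cycles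
  /-- the restriction -/
  G : GenericFibre F W Z E
  /-- the alteration (or more generally a dominant morphism) -/
  φ : Z ⟶ Y
  dominant : IsDominant ops φ
  dec : PerverseDecomposition W φ D E
  extD : ∃ y ∈ classes W₁ F.T 1, G.ρ y = W.cl Z (ops.pull φ D)
  extz : ∃ y ∈ classes W₁ F.T b, G.ρ y = W.cl Z (ops.pull φ z)

/-- The sets of divisors `amp X` look like the sets of the very ample divisors: they satisfy hard
Lefschetz, are compatible with products, and there are linear sections in all dimensions which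
satisfy the weak Lefschetz theorem. -/
structure IsPolarised (W : WeilCohomology.{u, v} ops₁) (amp : ∀ X : 𝒱₁.Obj, Set X.Cycles) :
    Prop where
  nonempty : ∀ X, (amp X).Nonempty
  lef : ∀ X, ∀ D ∈ amp X, Lef W X D
  prod : ∀ X Y : 𝒱₁.Obj, ∀ D ∈ amp X, ∀ E ∈ amp Y,
    ops₁.pull (fst X Y) D + ops₁.pull (snd X Y) E ∈ amp (X.prod Y)
  sections : ∀ X, ∀ D ∈ amp X, ∀ r ∈ Set.Icc 1 X.dim, ∃ (Y : 𝒱₁.Obj) (i : Y ⟶ X), Y.dim = r ∧
    IsPow (W.cl X (ops₁.push i Y.V.fundCycle)) (W.cl X D) (X.dim - r) ∧
    OntoBelow (W.gr X) (W.gr Y) (W.map i) r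

/-- All varieties over `k` with a very ample divisor and a cycle have models over `k₁`. -/
def HasModels (W₁ : WeilCohomology.{u, v} ops₁) (W : WeilCohomology.{u', v'} ops)
    (amp : ∀ X : 𝒱.Obj, Set X.Cycles) : Prop :=
  ∀ (Y : 𝒱.Obj), ∀ D ∈ amp Y, ∀ b z, Y.IsCyc b z → Nonempty (Model W₁ W Y D b z)

/-- The classes of the cycles of the complementary codimensions `p` and `dim T - p` span subspaces
of the same dimension, for `p ≤ d` and `2 p ≤ dim T` (in particular if the conjecture A holds for
`T` in the codimensions at most `d`). -/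
def SymRanks (W : WeilCohomology.{u, v} ops₁) (T : 𝒱₁.Obj) (d : ℕ) : Prop :=
  ∀ p ≤ d, 2 * p ≤ T.dim → SameRank (Span W T (T.dim - p)) (Span W T p)

/-- There is one system of cycles `Λ i` of codimension `i` on `X × X`, `i ≤ d`, inducing the
inverses of the maps `D ^ (n - i) : H^i(X) → H^(2n - i)(X)`, `n = dim X`, (and zero in the other
degrees) for all Weil cohomology theories with the same Betti numbers `b_i(X)`, `i ≤ d`, as `W`. -/
def OneSystem (W : WeilCohomology.{u, v} ops₁) (X : 𝒱₁.Obj) (D : X.Cycles) (d : ℕ) : Prop :=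
  ∃ Λ : ℕ → (X.prod X).Cycles, ∀ i ≤ d, i ≤ X.dim → (X.prod X).IsCyc i (Λ i) ∧
    ∀ W' : WeilCohomology.{u, v} ops₁, SameBetti (W'.gr X) (W.gr X) d →
      IsInverse (W'.gr X) X.dim i (W'.cl X D) (W'.corr (W'.cl _ (Λ i)))

/-- The Lefschetz standard conjecture for all varieties and the theory `W`: the inverses of the
maps `D ^ (n - i) : H^i(X) → H^(2n - i)(X)` are induced by cycles. -/
def LSC (W : WeilCohomology.{u, v} ops₁) : Prop :=
  ∀ (X : 𝒱₁.Obj) (D : X.Cycles), Lef W X D → ∀ i ≤ X.dim, ∃ z, (X.prod X).IsCyc i z ∧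
    LeftInverts (W.gr X) X.dim i (W.cl X D) (W.corr (W.cl _ z))

end Pool.Agent.N190.FE
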