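import Pool.Agent.N190.FE.Fib
import Pool.Agent.N190.FE.Stm
import Pool.Agent.N190.Lin.Main
import Pool.Agent.N190.Lin.Sect
import Pool.Agent.W550.B.Top

/-!
# The Lefschetz standard conjecture and extensions of the base field
-/

open CategoryTheory AlgebraicGeometry Finset

set_option linter.unusedSectionVars false

universe u v u' v'

namespace Pool.Agent.N190.FE

open Pool.Agent.H914 Pool.Agent.H447 Pool.Agent.W498.Dom Pool.Agent.W534 Pool.Agent.W537
  Pool.Agent.W550.B VarClass Obj WeilCohomology Pool.Agent.X310 Pool.Agent.N190.Lin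

section Weil

variable {k : Type u} [Field k] {𝒱 : VarClass k} {ops : CycleOps 𝒱}
  {W : WeilCohomology.{u, v} ops} {X Y : 𝒱.Obj}

lemma span_eq (p : ℕ) : Span W X p = spanCycles W X p := (spanCycles_eq p).symm

lemma alg_mul {p q : ℕ} {a b : W.H X} (ha : a ∈ algClasses W X p) (hb : b ∈ algClasses W X q) :
    a * b ∈ algClasses W X (p + q) := by
  obtain ⟨z, hz, rfl⟩ := ha
  obtain ⟨w, hw, rfl⟩ := hb
  exact ⟨ops.mul z w, ops.mul_mem hz hw, W.cl_mul z w⟩

lemma mul_span {p q : ℕ} {a b : W.H X} (ha : a ∈ algClasses W X p) (hb : b ∈ spanCycles W X q) :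
    a * b ∈ spanCycles W X ((p + q : ℕ) : ℤ) := by
  rw [spanCycles_eq] at hb
  induction hb using Submodule.span_induction with
  | mem b hb => exact alg_mem_span (alg_mul ha hb)
  | zero => rw [mul_zero]; exact Submodule.zero_mem _
  | add x y _ _ hx hy => rw [mul_add]; exact Submodule.add_mem _ hx hy
  | smul c x _ hx => rw [mul_smul_comm]; exact Submodule.smul_mem _ _ hx

lemma eop_pow_span {E : X.Cycles} (hE : X.IsCyc 1 E) (r : ℕ) {p : ℕ} {x : W.H X}
    (hx : x ∈ spanCycles W X p) : (eop W X E ^ r) x ∈ spanCycles W X ((p + r : ℕ) : ℤ) := by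
  induction r with
  | zero => simpa using hx
  | succ r ih =>
    rw [pow_succ', Module.End.mul_apply, LinearMap.mulLeft_apply]
    have := mul_span ⟨E, hE, rfl⟩ ih
    rwa [show 1 + (p + r) = p + (r + 1) by ring] at this

lemma push_span (f : X ⟶ Y) {r p : ℕ} (hr : X.dim = Y.dim + r) {x : W.H X}
    (hx : x ∈ spanCycles W X ((p + r : ℕ) : ℤ)) : W.push f x ∈ spanCycles W Y p := by
  rw [spanCycles_eq] at hx
  induction hx using Submodule.span_induction with
  | mem b hb =>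
    obtain ⟨z, hz, rfl⟩ := hb
    exact alg_mem_span ⟨ops.push f z, ops.push_mem f hz (by omega), W.cl_push f z⟩
  | zero => rw [map_zero]; exact Submodule.zero_mem _
  | add x y _ _ hx hy => rw [map_add]; exact Submodule.add_mem _ hx hy
  | smul c x _ hx => rw [map_smul]; exact Submodule.smul_mem _ _ hx

lemma push_pow_mul (f : X ⟶ Y) {D : Y.Cycles} (hD : Y.IsCyc 1 D) (c : ℕ) (x : W.H X) :
    W.push f ((hop W f D ^ c) x) = (LinearMap.mulLeft W.K (W.cl Y D) ^ c) (W.push f x) := by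
  rw [hop_pow, LinearMap.pow_mulLeft, LinearMap.mulLeft_apply,
    W.even_comm (W.map_mem f (xi_mem (W := W) hD c)), W.push_mul,
    W.even_comm (xi_mem (W := W) hD c)]

end Weil

variable {k₁ : Type u} [Field k₁] {𝒱₁ : VarClass k₁} {ops₁ : CycleOps 𝒱₁}
  {W₁ : WeilCohomology.{u, v} ops₁} {k : Type u'} [Field k] {𝒱 : VarClass k}
  {ops : CycleOps 𝒱} {W : WeilCohomology.{u', v'} ops} {Y : 𝒱.Obj} {D : Y.Cycles} {b : ℕ}
  {z : Y.Cycles}

namespace Model

variable (M : Model W₁ W Y D b z)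

/-- The span of the restrictions of the classes of cycles. -/
noncomputable def R (q : ℕ) : Submodule W.K (W.H M.Z) :=
  Submodule.span W.K (M.G.ρ '' classes W₁ M.F.T q)

lemma R_le (q : ℕ) : M.R q ≤ spanCycles W M.Z q := by
  rw [R, Submodule.span_le]
  rintro _ ⟨x, hx, rfl⟩
  exact alg_mem_span (M.G.isRestriction.cycles q x hx)

lemma ρ_zero : M.G.ρ 0 = 0 := M.G.isRestriction.ker 0 (mul_zero _)

lemma ρ_sub (x y : W₁.H M.F.T) : M.G.ρ (x - y) = M.G.ρ x - M.G.ρ y := by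
  have h1 := M.G.isRestriction.add (x - y) y
  rw [sub_add_cancel] at h1
  rw [h1, add_sub_cancel_right]

lemma restr_span {q : ℕ} {x : W₁.H M.F.T} (hx : x ∈ spanCycles W₁ M.F.T q) :
    M.G.ρ x ∈ M.R q := by
  obtain ⟨σ, hσ⟩ := M.G.isRestriction.semilinear
  rw [spanCycles_eq] at hx
  induction hx using Submodule.span_induction with
  | mem x hx => exact Submodule.subset_span ⟨x, hx, rfl⟩
  | zero => rw [ρ_zero]; exact Submodule.zero_mem _
  | add x y _ _ hx hy => rw [M.G.isRestriction.add]; exact Submodule.add_mem _ hx hy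
  | smul c x _ hx => rw [hσ]; exact Submodule.smul_mem _ _ hx

lemma mul_R {a : W₁.H M.F.T} (ha : a ∈ algClasses W₁ M.F.T 1) {q : ℕ} {x : W.H M.Z}
    (hx : x ∈ M.R q) : M.G.ρ a * x ∈ M.R (q + 1) := by
  rw [R] at hx
  induction hx using Submodule.span_induction with
  | mem x hx =>
    obtain ⟨y, hy, rfl⟩ := hx
    rw [← M.G.isRestriction.mul]
    refine Submodule.subset_span ⟨a * y, ?_, rfl⟩
    rw [add_comm]
    exact alg_mul ha hy
  | zero => rw [mul_zero]; exact Submodule.zero_mem _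
  | add x y _ _ hx hy => rw [mul_add]; exact Submodule.add_mem _ hx hy
  | smul c x _ hx => rw [mul_smul_comm]; exact Submodule.smul_mem _ _ hx

lemma hop_R {q : ℕ} {x : W.H M.Z} (hx : x ∈ M.R q) : hop W M.φ D x ∈ M.R (q + 1) := by
  obtain ⟨a, ha, hab⟩ := M.extD
  rw [W.cl_pull] at hab
  rw [LinearMap.mulLeft_apply, ← hab]
  exact M.mul_R ha hx

lemma alg_L : W₁.cl M.F.T M.F.L ∈ algClasses W₁ M.F.T 1 := ⟨M.F.L, M.F.lef.1, rfl⟩

lemma eop_R {q : ℕ} {x : W.H M.Z} (hx : x ∈ M.R q) : eop W M.Z M.E x ∈ M.R (q + 1) := by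
  rw [LinearMap.mulLeft_apply, ← M.G.restr_L]
  exact M.mul_R M.alg_L hx

lemma eop_pow_restr (c : ℕ) (x : W₁.H M.F.T) :
    M.G.ρ ((eop W₁ M.F.T M.F.L ^ c) x) = (eop W M.Z M.E ^ c) (M.G.ρ x) := by
  induction c with
  | zero => rfl
  | succ c ih =>
    rw [pow_succ', pow_succ', Module.End.mul_apply, Module.End.mul_apply,
      LinearMap.mulLeft_apply, LinearMap.mulLeft_apply, M.G.isRestriction.mul, ih, M.G.restr_L]

/-- The restrictions of cycles satisfy the conjecture A. -/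
lemma R_surj {d : ℕ} (hA : SymRanks W₁ M.F.T d) {p q : ℕ} (hpq : p + q = M.Z.dim) (hle : p ≤ q)
    (hpd : p ≤ d) {x : W.H M.Z} (hx : x ∈ M.R q) :
    ∃ a ∈ M.R p, (eop W M.Z M.E ^ (q - p)) a = x := by
  have S := setup M.F.dec M.F.isCyc_H M.F.lef.1 rfl
  have hb : hop W₁ M.F.f M.F.H ^ (M.F.B.dim + 1) = 0 := by
    apply LinearMap.ext
    intro y
    have h1 := xi_mem (W := W₁) M.F.isCyc_H (M.F.B.dim + 1)
    rw [W₁.gr_eq_bot M.F.B _ (by omega)] at h1
    rw [hop_pow, (Submodule.mem_bot _).1 h1, map_zero, zero_mul, LinearMap.zero_apply]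
  rw [R] at hx
  induction hx using Submodule.span_induction with
  | mem x hx =>
    obtain ⟨w, hw, rfl⟩ := hx
    obtain ⟨a, ha, h0⟩ := curve_surj S hb (Z := fun q => spanCycles W₁ M.F.T q)
      (fun q v hv => H914.span_gr hv)
      (fun q v hv => by
        have h1 := mul_span (W := W₁) (p := 1) (a := W₁.map M.F.f (W₁.cl M.F.B M.F.H))
          ⟨ops₁.pull M.F.f M.F.H, ops₁.pull_mem M.F.f M.F.isCyc_H, W₁.cl_pull M.F.f M.F.H⟩ hv
        rw [add_comm] at h1
        exact h1)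
      (fun q v hv => by
        have h1 := mul_span (W := W₁) M.alg_L hv
        rw [add_comm] at h1
        exact h1)
      (d := d)
      (fun p q hpq hle hpd => by
        have h1 := hA p hpd (by omega)
        rw [show M.F.T.dim - p = q by omega, span_eq, span_eq] at h1
        exact h1.le)
      (p := p) (q := q) (by have := M.G.dim_eq; omega) hle hpd (alg_mem_span hw)
    rw [hop_pow, ← M.F.isPow, ← W₁.cl_pull] at h0
    have h1 := M.G.isRestriction.ker _ h0
    rw [M.ρ_sub, sub_eq_zero, M.eop_pow_restr] at h1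
    exact ⟨M.G.ρ a, M.restr_span ha, h1.symm⟩
  | zero => exact ⟨0, Submodule.zero_mem _, map_zero _⟩
  | add x y _ _ hx hy =>
    obtain ⟨a, ha, rfl⟩ := hx
    obtain ⟨b, hb, rfl⟩ := hy
    exact ⟨a + b, Submodule.add_mem _ ha hb, map_add _ _ _⟩
  | smul c x _ hx =>
    obtain ⟨a, ha, rfl⟩ := hx
    exact ⟨c • a, Submodule.smul_mem _ _ ha, map_smul _ _ _⟩

/-- The family of the restrictions of cycles. -/
lemma sub_R {d : ℕ} (hA : SymRanks W₁ M.F.T d) {m : ℕ} (hm : M.Z.dim = m) :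
    Sub (W.gr M.Z) m (hop W M.φ D) (eop W M.Z M.E) (dbl M.R) (m - 2 * d) := by
  apply sub_dbl
  · intro q x hx
    exact H914.span_gr (M.R_le q hx)
  · intro q x hx
    exact M.hop_R hx
  · intro q x hx
    exact M.eop_R hx
  · intro p q hpq hle hpd
    have h1 : M.R q ≤ (M.R p).map (eop W M.Z M.E ^ (q - p)) := by
      intro x hx
      obtain ⟨a, ha, hax⟩ := M.R_surj hA (by rw [hpq, hm]) hle hpd hx
      exact ⟨a, ha, hax⟩
    exact (Submodule.finrank_mono h1).trans (Submodule.finrank_map_le _ _)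

/-- **Division by a divisor on the generic fibre.** -/
theorem exists_div (hD : Y.IsCyc 1 D) (hHL : HardLefschetz W Y D) {d : ℕ}
    (hA : SymRanks W₁ M.F.T d) {p : ℕ} (hp : p + b = Y.dim) (hle : p ≤ b) (hpd : p ≤ d) :
    ∃ γ ∈ spanCycles W Y p, (LinearMap.mulLeft W.K (W.cl Y D) ^ (b - p)) γ = W.cl Y z := by
  by_cases h1 : (1 : W.H Y) = 0
  · refine ⟨0, Submodule.zero_mem _, ?_⟩
    rw [map_zero, ← mul_one (W.cl Y z), h1, mul_zero]
  obtain ⟨r, hr⟩ : ∃ r, M.Z.dim = Y.dim + r := ⟨M.Z.dim - Y.dim, by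
    have := dim_le M.dec hD M.G.isCyc_E hHL M.dominant h1; omega⟩
  have S := setup M.dec hD M.G.isCyc_E hr
  obtain ⟨δ, M'⟩ := exists_mapSetup M.dec hD M.G.isCyc_E hHL M.dominant h1 hr
  have SA := M.sub_R hA hr
  obtain ⟨x, hx, hxβ⟩ := image_surj S M' SA (c := b - p) (by omega) (by omega)
    (β := W.cl Y z) (by
      rw [show Y.dim + (b - p) = 2 * b by omega, dbl_two]
      obtain ⟨a, ha, hab⟩ := M.extz
      rw [W.cl_pull] at hab
      exact Submodule.subset_span ⟨a, ha, hab⟩)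
  rw [show Y.dim - (b - p) = 2 * p by omega, dbl_two] at hx
  refine ⟨δ⁻¹ • W.push M.φ ((eop W M.Z M.E ^ r) x), Submodule.smul_mem _ _
    (push_span M.φ hr (eop_pow_span M.G.isCyc_E r (M.R_le p hx))), ?_⟩
  rw [map_smul, ← push_pow_mul M.φ hD, hxβ, smul_smul, inv_mul_cancel₀ M'.δ0, one_smul]

end Model

/-- The equality of two ranks from the division of the cycles. -/
lemma rank_eq {b : ℕ} {p : ℕ} (hD : Y.IsCyc 1 D) (hHL : HardLefschetz W Y D)
    (hp : p + b = Y.dim) (hle : p ≤ b)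
    (h : ∀ z, Y.IsCyc b z → ∃ γ ∈ spanCycles W Y p,
      (LinearMap.mulLeft W.K (W.cl Y D) ^ (b - p)) γ = W.cl Y z) :
    cycleRank W Y p = cycleRank W Y b := by
  refine finrank_eq_of_surj (T := LinearMap.mulLeft W.K (W.cl Y D) ^ (b - p)) ?_ ?_ ?_
  · intro x hx
    have := eop_pow_span hD (b - p) hx
    rwa [show p + (b - p) = b by omega] at this
  · intro x hx hx0
    have h4 : x ∈ W.gr Y (2 * p) := H914.span_gr hx
    refine (hHL (2 * p) (by omega)).1 x h4 ?_
    rwa [show Y.dim - 2 * p = b - p by omega]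
  · intro y hy
    rw [spanCycles_eq] at hy
    induction hy using Submodule.span_induction with
    | mem y hy =>
      obtain ⟨z, hz, rfl⟩ := hy
      exact h z hz
    | zero => exact ⟨0, Submodule.zero_mem _, map_zero _⟩
    | add x y _ _ hx hy =>
      obtain ⟨a, ha, rfl⟩ := hx
      obtain ⟨b, hb, rfl⟩ := hy
      exact ⟨a + b, Submodule.add_mem _ ha hb, map_add _ _ _⟩
    | smul c x _ hx =>
      obtain ⟨a, ha, rfl⟩ := hx
      exact ⟨c • a, Submodule.smul_mem _ _ ha, map_smul _ _ _⟩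

/-- The square of a variety, with hard Lefschetz. -/
lemma hard_square {X : 𝒱.Obj} {D : X.Cycles} (hD : Lef W X D) :
    (X.prod X).IsCyc 1 (TH720.LB.sumDiv ops D D) ∧
      HardLefschetz W (X.prod X) (TH720.LB.sumDiv ops D D) :=
  ⟨Pool.Agent.TH720.LB.isCyc_sumDiv hD.1 hD.1,
    TH125.Gal.hardLefschetz_prod hD.1 hD.1 hD.2 hD.2⟩

/-- The conjecture B from its definition by inverses. -/
lemma lefschetzB_of_LSC (h : LSC W₁) {T : 𝒱₁.Obj} {L : T.Cycles} (hL : Lef W₁ T L) :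
    LefschetzB W₁ T L := by
  apply B_of_bUpTo hL.1 hL.2
  intro i hi
  obtain ⟨z, hz, hz'⟩ := h T L hL i (by omega)
  refine ⟨z, (inverts_iff hL.1 W₁ (by omega)).2 ⟨hz, fun a ha => ?_⟩⟩
  rw [show T.dim - (T.dim - i) = i by omega] at ha
  have h1 := hz' a ha
  rw [LinearMap.pow_mulLeft]
  exact h1

/-- The symmetry of the ranks from the conjecture B. -/
lemma symRanks_of_LSC (h : LSC W₁) {T : 𝒱₁.Obj} {L : T.Cycles} (hL : Lef W₁ T L)
    (d : ℕ) : SymRanks W₁ T d := by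
  intro p _ hp
  have h1 := rank_of_A hL.1 hL.2 (lefschetzA_of_B hL.1 hL.2 (lefschetzB_of_LSC h hL)) (p := p)
    (q := T.dim - p) (by omega)
  rw [span_eq, span_eq]
  exact h1.symm

/-- **The conjecture B from models of the square.** -/
theorem lefschetzB_of_models {X : 𝒱.Obj} {D : X.Cycles} (hD : Lef W X D)
    (hM : ∀ z, (X.prod X).IsCyc (X.dim + 1) z →
      ∃ M : Model W₁ W (X.prod X) (TH720.LB.sumDiv ops D D) (X.dim + 1) z,
        SymRanks W₁ M.F.T (X.dim - 1)) :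
    LefschetzB W X D := by
  rcases Nat.eq_zero_or_pos X.dim with h0 | hpos
  · exact lefschetzB_zero hD.1 hD.2 h0
  obtain ⟨h2, h3⟩ := hard_square hD
  apply Pool.Agent.W534.lefschetzB_of_rank hD.1 hD.2
  have hc : ((X.dim : ℤ) - 1) = ((X.dim - 1 : ℕ) : ℤ) := by omega
  have hc' : ((X.dim : ℤ) + 1) = ((X.dim + 1 : ℕ) : ℤ) := by push_cast; ring
  rw [hc, hc']
  have hdim : (X.prod X).dim = X.dim + X.dim := rfl
  apply rank_eq h2 h3 (by omega) (by omega)
  intro z hz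
  obtain ⟨M, hA⟩ := hM z hz
  exact M.exists_div h2 h3 hA (p := X.dim - 1) (by omega) (by omega) le_rfl

/-- **Extension of the base field.** -/
theorem lefschetzB_extension {amp : ∀ X : 𝒱.Obj, Set X.Cycles} (hamp : IsPolarised W amp)
    (hM : HasModels W₁ W amp)
    (h : LSC W₁) {X : 𝒱.Obj} {D : X.Cycles} (hD : Lef W X D) :
    LefschetzB W X D := by
  obtain ⟨D', hD'⟩ := hamp.nonempty X
  have h1 := hamp.lef X D' hD'
  refine lefschetzB_indep h1.1 h1.2 hD.1 hD.2 (lefschetzB_of_models (W₁ := W₁) h1 ?_)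
  intro z hz
  obtain ⟨M⟩ := hM (X.prod X) _ (hamp.prod X X D' hD' D' hD') (X.dim + 1) z hz
  exact ⟨M, symRanks_of_LSC h M.F.lef _⟩

/-- **Extension of the base field: the conjecture A in the codimensions at most `d`.** -/
theorem symRanks_extension {amp : ∀ X : 𝒱.Obj, Set X.Cycles} (hamp : IsPolarised W amp)
    (hM : HasModels W₁ W amp) {d : ℕ} (h : ∀ T : 𝒱₁.Obj, SymRanks W₁ T d) (Y : 𝒱.Obj) :
    SymRanks W Y d := by
  intro p hp hp'
  obtain ⟨D, hD⟩ := hamp.nonempty Y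
  obtain ⟨h2, h3⟩ := hamp.lef _ _ hD
  rw [span_eq, span_eq]
  refine (rank_eq (p := p) (b := Y.dim - p) h2 h3 (by omega) (by omega) ?_).symm
  intro z hz
  obtain ⟨M⟩ := hM Y D hD (Y.dim - p) z hz
  exact M.exists_div h2 h3 (h M.F.T) (by omega) (by omega) hp

/-- **Extension of the base field, up to degree `d`.** -/
theorem bUpTo_extension {amp : ∀ X : 𝒱.Obj, Set X.Cycles} (hamp : IsPolarised W amp)
    (hM : HasModels W₁ W amp) {d : ℕ} (h : ∀ T : 𝒱₁.Obj, SymRanks W₁ T d) {X : 𝒱.Obj}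
    {D : X.Cycles} (hD : D ∈ amp X) (hd : d ≤ X.dim) : BUpTo W X D d := by
  have hY : ∀ r, ∃ (Y : 𝒱.Obj) (i : Y ⟶ X), r ∈ Set.Icc 1 X.dim →
      Y.dim = r ∧ IsLinearSection W D i := by
    intro r
    by_cases hr : r ∈ Set.Icc 1 X.dim
    · obtain ⟨Y, i, h1, h2, h3⟩ := hamp.sections X D hD r hr
      refine ⟨Y, i, fun _ => ⟨h1, ?_, ?_, ?_⟩⟩
      · rw [h1]; exact hr.2
      · rw [h1]; exact h2
      · intro j hj
        rw [h1] at hj
        exact h3 j hj
    · exact ⟨X, 𝟙 X, fun h => absurd h hr⟩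
  choose Y i hY using hY
  have hX := hamp.lef X D hD
  refine bUpTo_of_ranks hX.1 hd (Y := Y) i
    (fun r hr => (hY r ⟨hr.1, hr.2.trans hd⟩).1) hX.2
    (fun r hr => (hY r ⟨hr.1, hr.2.trans hd⟩).2) ?_
  intro r hr
  right
  have hYr := (hY r ⟨hr.1, hr.2.trans hd⟩).1
  have hrd : r ≤ d := hr.2
  obtain ⟨E, hE⟩ := hamp.nonempty (Y r)
  have hP := hamp.prod X (Y r) D hD E hE
  obtain ⟨h2, h3⟩ := hamp.lef _ _ hP
  have hdim : (X.prod (Y r)).dim = X.dim + (Y r).dim := rfl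
  apply rank_eq h2 h3 (by omega) (by omega)
  intro z hz
  obtain ⟨M⟩ := hM (X.prod (Y r)) _ hP X.dim z hz
  exact M.exists_div h2 h3 (h M.F.T) (by omega) (by omega) hrd

/-- From the conjecture B up to degree `d` to one system of cycles. -/
lemma oneSystem_of_bUpTo {X : 𝒱.Obj} {D : X.Cycles} (hD : Lef W X D) {d : ℕ}
    (hd : d ≤ X.dim) (hB : BUpTo W X D d) {d' : ℕ} (hd' : d ≤ d') (hd'' : d = d' ∨ d = X.dim) :
    OneSystem W X D d' := by
  obtain ⟨Λ, hΛ⟩ := oneCycle hD.1 hd W hB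
  have key : ∀ W' : WeilCohomology.{u', v'} ops, (∀ i ≤ d, W'.betti X i = W.betti X i) →
      ∀ i ≤ d, InducesInverse W' X D i (Λ i) := fun W' h0 => ((hΛ W').out 0 2).1 h0
  refine ⟨Λ, fun i hi hi' => ⟨((key W fun _ _ => rfl) i (by omega)).1.1, fun W' h => ?_⟩⟩
  obtain ⟨⟨-, h1, h2⟩, h3⟩ := key W' (fun i hi => h i (hi.trans hd')) i (by omega)
  exact ⟨h1, h2, h3⟩

/-- **One system of cycles, up to degree `d`.** -/
theorem oneSystem_extension {amp : ∀ X : 𝒱.Obj, Set X.Cycles} (hamp : IsPolarised W amp)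
    (hM : HasModels W₁ W amp) {d : ℕ} (h : ∀ T : 𝒱₁.Obj, SymRanks W₁ T d) {X : 𝒱.Obj}
    {D : X.Cycles} (hD : D ∈ amp X) : OneSystem W X D d := by
  rcases le_or_gt d X.dim with hd | hd
  · exact oneSystem_of_bUpTo (hamp.lef X D hD) hd (bUpTo_extension hamp hM h hD hd) le_rfl
      (Or.inl rfl)
  · refine oneSystem_of_bUpTo (hamp.lef X D hD) le_rfl (bUpTo_extension hamp hM ?_ hD le_rfl)
      hd.le (Or.inr rfl)
    intro T p hp
    exact h T p (hp.trans hd.le)

/-- **One system of cycles in all degrees.** -/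
theorem oneSystem_all {amp : ∀ X : 𝒱.Obj, Set X.Cycles} (hamp : IsPolarised W amp)
    (hM : HasModels W₁ W amp) (h : LSC W₁) {X : 𝒱.Obj} {D : X.Cycles}
    (hD : Lef W X D) (d : ℕ) : OneSystem W X D d := by
  have hB : BUpTo W X D X.dim :=
    exists_inverts hD.1 hD.2 (lefschetzB_extension hamp hM h hD)
  rcases le_or_gt d X.dim with hd | hd
  · exact oneSystem_of_bUpTo hD hd (fun i hi => hB i (hi.trans hd)) le_rfl (Or.inl rfl)
  · exact oneSystem_of_bUpTo hD le_rfl hB hd.le (Or.inr rfl)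

end Pool.Agent.N190.FE
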