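import Pool.Agent.W498.Dom.Main

/-!
# Graded subspaces stable under two commuting Lefschetz operators
-/

open Finset

set_option linter.unusedSectionVars false

namespace Pool.Agent.N190.FE

open Pool.Agent.H914 Pool.Agent.H447 Pool.Agent.W498.Dom

section Alg

variable {K : Type*} [Field K] [CharZero K] {V : Type*} [AddCommGroup V] [Module K V]

/-- The rank of a subspace and of its image. -/
lemma finrank_map_add [Module.Finite K V] (f : Module.End K V) (S : Submodule K V) :
    Module.finrank K (S.map f) + Module.finrank K (S ⊓ LinearMap.ker f : Submodule K V) =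
      Module.finrank K S := by
  have h1 := (f.domRestrict S).finrank_range_add_finrank_ker
  rw [LinearMap.range_domRestrict] at h1
  have h2 : Module.finrank K (LinearMap.ker (f.domRestrict S)) =
      Module.finrank K (S ⊓ LinearMap.ker f : Submodule K V) := by
    have h3 : (LinearMap.ker (f.domRestrict S)).map S.subtype = S ⊓ LinearMap.ker f := by
      ext x
      constructor
      · rintro ⟨⟨y, hy⟩, hk, rfl⟩
        exact ⟨hy, hk⟩
      · rintro ⟨hx, hk⟩
        exact ⟨⟨x, hx⟩, hk, rfl⟩
    rw [← h3]
    exact (LinearEquiv.finrank_eq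
      (Submodule.equivMapOfInjective S.subtype S.injective_subtype _))
  rw [h2] at h1
  exact h1

/-- An injective map between two subspaces. -/
lemma finrank_le_of_inj [Module.Finite K V] {f : Module.End K V} {S T : Submodule K V}
    (hST : ∀ x ∈ S, f x ∈ T) (hf : ∀ x ∈ S, f x = 0 → x = 0) :
    Module.finrank K S ≤ Module.finrank K T := by
  have h1 := finrank_map_add f S
  have h2 : S ⊓ LinearMap.ker f = ⊥ := by
    rw [eq_bot_iff]
    rintro x ⟨hx, hk⟩
    exact (Submodule.mem_bot _).2 (hf x hx hk)
  rw [h2, finrank_bot, add_zero] at h1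
  rw [← h1]
  apply Submodule.finrank_mono
  rintro _ ⟨x, hx, rfl⟩
  exact hST x hx

/-- The map is surjective if the ranks are equal. -/
lemma surj_of_finrank [Module.Finite K V] {f : Module.End K V} {S T : Submodule K V}
    (hST : ∀ x ∈ S, f x ∈ T) (hf : ∀ x ∈ S, f x = 0 → x = 0)
    (hr : Module.finrank K S = Module.finrank K T) : ∀ y ∈ T, ∃ x ∈ S, f x = y := by
  have h1 := finrank_map_add f S
  have h2 : S ⊓ LinearMap.ker f = ⊥ := by
    rw [eq_bot_iff]
    rintro x ⟨hx, hk⟩
    exact (Submodule.mem_bot _).2 (hf x hx hk)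
  rw [h2, finrank_bot, add_zero] at h1
  have h3 : S.map f = T := by
    apply Submodule.eq_of_le_of_finrank_eq
    · rintro _ ⟨x, hx, rfl⟩
      exact hST x hx
    · rw [h1, hr]
  intro y hy
  rw [← h3] at hy
  obtain ⟨x, hx, hxy⟩ := hy
  exact ⟨x, hx, hxy⟩

end Alg

section Main

variable {K : Type*} [Field K] [CharZero K] {V : Type*} [AddCommGroup V] [Module K V]
  {gr P : ℕ → Submodule K V} {m : ℕ} {h e : Module.End K V}

/-- The leading terms in `P p` of the elements of `A j`. -/
noncomputable def lead (iP : DirectSum.IsInternal P) (A : ℕ → Submodule K V) (p j : ℕ) :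
    Submodule K V := (A j ⊓ below P (p + 1)).map (proj iP p)

/-- A family of graded subspaces stable under both operators whose ranks below the middle, at a
distance at least `c₀`, are at least the ranks above the middle. -/
structure Sub (gr : ℕ → Submodule K V) (m : ℕ) (h e : Module.End K V) (A : ℕ → Submodule K V)
    (c₀ : ℕ) : Prop where
  le : ∀ j, A j ≤ gr j
  h_mem : ∀ j, ∀ v ∈ A j, h v ∈ A (j + 2)
  e_mem : ∀ j, ∀ v ∈ A j, e v ∈ A (j + 2)
  rank_le : ∀ c, c₀ ≤ c → c ≤ m → Module.finrank K (A (m + c)) ≤ Module.finrank K (A (m - c))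

variable {A : ℕ → Submodule K V} {c₀ : ℕ}

lemma Sub.h_pow (SA : Sub gr m h e A c₀) {j : ℕ} {v : V} (hv : v ∈ A j) (c : ℕ) :
    (h ^ c) v ∈ A (j + 2 * c) := by
  induction c with
  | zero => simpa using hv
  | succ c ih =>
    rw [pow_succ', Module.End.mul_apply]
    exact SA.h_mem _ _ ih

lemma Sub.e_pow (SA : Sub gr m h e A c₀) {j : ℕ} {v : V} (hv : v ∈ A j) (c : ℕ) :
    (e ^ c) v ∈ A (j + 2 * c) := by
  induction c with
  | zero => simpa using hv
  | succ c ih =>
    rw [pow_succ', Module.End.mul_apply]
    exact SA.e_mem _ _ ih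

variable (S : Setup gr P m h e)

include S

lemma below_iff {a : ℕ} {v : V} : v ∈ below P a ↔ ∀ q, a ≤ q → proj S.iP q v = 0 :=
  mem_below S.iP S.bP

lemma below_zero : below P 0 = ⊥ := by
  rw [below]; simp

lemma below_top : below P (2 * m + 1) = ⊤ := by
  rw [eq_top_iff]
  intro v _
  rw [below_iff S]
  intro q hq
  have h1 := proj_mem S.iP q v
  rw [S.bP q hq] at h1
  exact (Submodule.mem_bot _).1 h1

lemma below_succ_ker (p : ℕ) :
    below P (p + 1) ⊓ LinearMap.ker (proj S.iP p) = below P p := by
  ext v
  rw [Submodule.mem_inf, LinearMap.mem_ker, below_iff S, below_iff S]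
  constructor
  · rintro ⟨h1, h2⟩ q hq
    rcases Nat.eq_or_lt_of_le hq with rfl | hlt
    · exact h2
    · exact h1 q hlt
  · intro h1
    exact ⟨fun q hq => h1 q (by omega), h1 p le_rfl⟩

/-- The ranks of the leading terms. -/
lemma finrank_lead [Module.Finite K V] (A : ℕ → Submodule K V) (p j : ℕ) :
    Module.finrank K (lead S.iP A p j) + Module.finrank K (A j ⊓ below P p : Submodule K V) =
      Module.finrank K (A j ⊓ below P (p + 1) : Submodule K V) := by
  have h1 := finrank_map_add (proj S.iP p) (A j ⊓ below P (p + 1))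
  rw [inf_assoc, below_succ_ker S p] at h1
  exact h1

lemma sum_lead [Module.Finite K V] (A : ℕ → Submodule K V) (j : ℕ) :
    ∑ p ∈ range (2 * m + 1), Module.finrank K (lead S.iP A p j) = Module.finrank K (A j) := by
  have h1 : ∀ N, ∑ p ∈ range N, Module.finrank K (lead S.iP A p j) =
      Module.finrank K (A j ⊓ below P N : Submodule K V) := by
    intro N
    induction N with
    | zero => rw [Finset.sum_range_zero, below_zero S, inf_bot_eq, finrank_bot]
    | succ N ih => rw [Finset.sum_range_succ, ih, add_comm, finrank_lead S]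
  rw [h1, below_top S, inf_top_eq]

lemma lead_le (SA : Sub gr m h e A c₀) (p j : ℕ) : lead S.iP A p j ≤ P p ⊓ gr j := by
  rintro _ ⟨v, ⟨hv, -⟩, rfl⟩
  exact ⟨proj_mem S.iP p v, S.projP_gr (SA.le j hv) p⟩

/-- `h ^ c` on the leading terms. -/
lemma h_pow_lead (SA : Sub gr m h e A c₀) {p j : ℕ} (c : ℕ) {v : V} (hv : v ∈ lead S.iP A p j) :
    (h ^ c) v ∈ lead S.iP A p (j + 2 * c) := by
  obtain ⟨a, ⟨ha, hb⟩, rfl⟩ := hv
  refine ⟨(h ^ c) a, ⟨SA.h_pow ha c, ?_⟩, (S.pow_h_projP p c a).symm⟩
  change (h ^ c) a ∈ below P (p + 1)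
  rw [below_iff S]
  intro q hq
  rw [← S.pow_h_projP, (below_iff S).1 hb q hq, map_zero]

/-- The powers of `top` on the leading terms. -/
lemma top_pow_eq {p : ℕ} (c : ℕ) {a : V} (ha : a ∈ below P (p + 1)) :
    (top S.iP m e ^ c) (proj S.iP p a) = proj S.iP (p + 2 * c) ((e ^ c) a) := by
  rw [top_pow' S.iP S.bP S.eP (proj_mem S.iP p a) c]
  have h1 : ∀ q, p - 1 < q → proj S.iP q (a - proj S.iP p a) = 0 := by
    intro q hq
    rw [map_sub]
    rcases Nat.lt_trichotomy q p with h | h | h
    · exfalso; omega
    · rw [h, proj_same S.iP (proj_mem S.iP p a), sub_self]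
    · rw [(below_iff S).1 ha q (by omega), proj_ne S.iP (proj_mem S.iP p a) (by omega), sub_zero]
  rcases Nat.eq_zero_or_pos p with rfl | hp
  · have h2 : a - proj S.iP 0 a = 0 := by
      have h3 : proj S.iP 0 (a - proj S.iP 0 a) = 0 := by
        rw [map_sub, proj_same S.iP (proj_mem S.iP 0 a), sub_self]
      rw [S.sumP (a - proj S.iP 0 a)]
      apply Finset.sum_eq_zero
      intro q _
      rcases Nat.eq_zero_or_pos q with rfl | hq
      · exact h3
      · exact h1 q (by omega)
    rw [← sub_eq_zero.1 h2]
  · have h2 := S.e_pow_level (k := c) h1 (p + 2 * c) (by omega)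
    rw [map_sub, map_sub, sub_eq_zero] at h2
    exact h2.symm

lemma top_pow_lead (SA : Sub gr m h e A c₀) {p j : ℕ} (c : ℕ) {v : V} (hv : v ∈ lead S.iP A p j) :
    (top S.iP m e ^ c) v ∈ lead S.iP A (p + 2 * c) (j + 2 * c) := by
  obtain ⟨a, ⟨ha, hb⟩, rfl⟩ := hv
  refine ⟨(e ^ c) a, ⟨SA.e_pow ha c, ?_⟩, (top_pow_eq S c hb).symm⟩
  change (e ^ c) a ∈ below P (p + 2 * c + 1)
  rw [below_iff S]
  intro q hq
  exact S.e_pow_level (a := p) (fun q' hq' => (below_iff S).1 hb q' (by omega)) q (by omega)

lemma lead_h_le [Module.Finite K V] (SA : Sub gr m h e A c₀) {p c : ℕ} (hc : c ≤ p) :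
    Module.finrank K (lead S.iP A p (p - c)) ≤ Module.finrank K (lead S.iP A p (p + c)) := by
  apply finrank_le_of_inj (f := h ^ c)
  · intro x hx
    have := h_pow_lead S SA c hx
    rwa [show p - c + 2 * c = p + c by omega] at this
  · intro x hx h0
    apply (S.hl p (p - c) (by omega)).1 x (lead_le S SA _ _ hx)
    rw [show p - (p - c) = c by omega]
    exact h0

lemma lead_top_le [Module.Finite K V] (SA : Sub gr m h e A c₀) {s : ℕ} (hs : s ≤ m) (j : ℕ) :
    Module.finrank K (lead S.iP A (m - s) j) ≤ Module.finrank K (lead S.iP A (m + s) (j + 2 * s)) := by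
  apply finrank_le_of_inj (f := top S.iP m e ^ s)
  · intro x hx
    have := top_pow_lead S SA s hx
    rwa [show m - s + 2 * s = m + s by omega] at this
  · intro x hx h0
    apply (S.rl (m - s) (by omega)).1 x (lead_le S SA _ _ hx).1
    rw [show m - (m - s) = s by omega]
    exact h0

lemma lead_zero [Module.Finite K V] (SA : Sub gr m h e A c₀) {p j : ℕ}
    (hj : 2 * p < j ∨ 2 * m < j ∨ 2 * m < p) : Module.finrank K (lead S.iP A p j) = 0 := by
  have h1 : P p ⊓ gr j = ⊥ := by
    rcases hj with h | h | h
    · exact S.van p j h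
    · rw [S.bgr j (by omega), inf_bot_eq]
    · rw [S.bP p (by omega), bot_inf_eq]
  have h2 := lead_le S SA p j
  rw [h1, le_bot_iff] at h2
  rw [h2, finrank_bot]

/-- **The symmetries of the ranks of the leading terms.** -/
theorem lead_ranks [Module.Finite K V] (SA : Sub gr m h e A c₀) (c : ℕ) (hc : c₀ ≤ c) :
    ∀ a d, a ≤ m → c ≤ a + d →
      Module.finrank K (lead S.iP A (m - a) (m - a + d)) =
          Module.finrank K (lead S.iP A (m + a) (m + a + d)) ∧
        (d ≤ m + a → Module.finrank K (lead S.iP A (m + a) (m + a - d)) =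
          Module.finrank K (lead S.iP A (m + a) (m + a + d))) ∧
        (d ≤ m - a → Module.finrank K (lead S.iP A (m - a) (m - a - d)) =
          Module.finrank K (lead S.iP A (m + a) (m + a + d))) := by
  set b : ℕ → ℕ → ℕ := fun p j => Module.finrank K (lead S.iP A p j) with hb
  have bz : ∀ p j, (2 * p < j ∨ 2 * m < j ∨ 2 * m < p) → b p j = 0 :=
    fun p j hj => lead_zero S SA hj
  have J1 : ∀ s ≤ m, ∀ j, b (m - s) j ≤ b (m + s) (j + 2 * s) :=
    fun s hs j => lead_top_le S SA hs j
  have J2 : ∀ p c, c ≤ p → b p (p - c) ≤ b p (p + c) := fun p c hc => lead_h_le S SA hc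
  -- the sandwich
  have hsand : ∀ a d, a ≤ m → (d ≤ m - a → b (m - a) (m - a - d) = b (m + a) (m + a + d)) →
      (m < a + d → b (m + a) (m + a + d) = 0) →
      b (m - a) (m - a + d) = b (m + a) (m + a + d) ∧
        (d ≤ m + a → b (m + a) (m + a - d) = b (m + a) (m + a + d)) ∧
        (d ≤ m - a → b (m - a) (m - a - d) = b (m + a) (m + a + d)) := by
    intro a d ha h3 h0
    have g1 : b (m - a) (m - a + d) ≤ b (m + a) (m + a + d) := by
      have := J1 a ha (m - a + d)
      rwa [show m - a + d + 2 * a = m + a + d by omega] at this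
    have g2 : d ≤ m + a → b (m + a) (m + a - d) ≤ b (m + a) (m + a + d) := fun h => J2 _ _ h
    by_cases hd : d ≤ m - a
    · have e3 := h3 hd
      have g3 : b (m - a) (m - a - d) ≤ b (m - a) (m - a + d) := J2 _ _ hd
      have g4 : b (m - a) (m - a - d) ≤ b (m + a) (m + a - d) := by
        have := J1 a ha (m - a - d)
        rwa [show m - a - d + 2 * a = m + a - d by omega] at this
      refine ⟨by omega, fun h => ?_, fun _ => e3⟩
      have := g2 h
      omega
    · have h00 := h0 (by omega)
      refine ⟨by omega, fun h => ?_, fun h => absurd h hd⟩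
      have := g2 h
      omega
  -- downward induction
  have key : ∀ t c, c + t = m + 1 → c₀ ≤ c → ∀ a d, a ≤ m → c ≤ a + d →
      b (m - a) (m - a + d) = b (m + a) (m + a + d) ∧
        (d ≤ m + a → b (m + a) (m + a - d) = b (m + a) (m + a + d)) ∧
        (d ≤ m - a → b (m - a) (m - a - d) = b (m + a) (m + a + d)) := by
    intro t
    induction t with
    | zero =>
      intro c hc _ a d ha had
      exact hsand a d ha (fun h => by omega) (fun _ => bz _ _ (by omega))
    | succ t ih =>
      intro c hct hc0 a d ha had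
      have ih' := ih (c + 1) (by omega) (by omega)
      rcases Nat.eq_or_lt_of_le had with heq | hlt
      · -- the new equalities
        have hcm : c ≤ m := by omega
        have hterm : ∀ p ∈ range (2 * m + 1), b (2 * m - p) (m - c) ≤ b p (m + c) := by
          intro p hp
          have hp' := Finset.mem_range.1 hp
          rcases le_or_gt m p with h1 | h1
          · obtain ⟨s, rfl⟩ := Nat.exists_eq_add_of_le h1
            rcases le_or_gt s c with h2 | h2
            · have f1 := J1 s (by omega) (m - c)
              have f2 := J2 (m + s) (c - s) (by omega)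
              rw [show m + s - (c - s) = m - c + 2 * s by omega,
                show m + s + (c - s) = m + c by omega] at f2
              rw [show 2 * m - (m + s) = m - s by omega]
              exact f1.trans f2
            · obtain ⟨f1, f2, -⟩ := ih' s (s - c) (by omega) (by omega)
              have f3 := f2 (by omega)
              rw [show m - s + (s - c) = m - c by omega] at f1
              rw [show m + s - (s - c) = m + c by omega] at f3
              rw [show 2 * m - (m + s) = m - s by omega, f1, f3]
          · obtain ⟨f1, f2, -⟩ := ih' (m - p) (c + (m - p)) (by omega) (by omega)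
            rw [show m - (m - p) + (c + (m - p)) = m + c by omega,
              show m - (m - p) = p by omega] at f1
            by_cases h3 : c + (m - p) ≤ m + (m - p)
            · have f3 := f2 h3
              rw [show m + (m - p) - (c + (m - p)) = m - c by omega] at f3
              rw [show 2 * m - p = m + (m - p) by omega, f1, f3]
            · omega
        have hsum : ∑ p ∈ range (2 * m + 1), b (2 * m - p) (m - c) =
            ∑ p ∈ range (2 * m + 1), b p (m + c) := by
          apply le_antisymm (Finset.sum_le_sum hterm)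
          have h1 := Finset.sum_range_reflect (fun p => b p (m - c)) (2 * m + 1)
          have h2 : ∑ p ∈ range (2 * m + 1), b (2 * m - p) (m - c) =
              ∑ p ∈ range (2 * m + 1), b p (m - c) := by
            rw [← h1]
            apply Finset.sum_congr rfl
            intro p _
            rw [show 2 * m + 1 - 1 - p = 2 * m - p by omega]
          rw [h2, sum_lead S A (m - c), sum_lead S A (m + c)]
          exact SA.rank_le c hc0 hcm
        have hall := (Finset.sum_eq_sum_iff_of_le hterm).1 hsum
        apply hsand a d ha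
        · intro hd
          have h1 := hall (m + a) (Finset.mem_range.2 (by omega))
          rw [show 2 * m - (m + a) = m - a by omega, show m - c = m - a - d by omega,
            show m + c = m + a + d by omega] at h1
          exact h1
        · intro h1; omega
      · exact ih' a d ha (by omega)
  by_cases hcm : c ≤ m + 1
  · exact key (m + 1 - c) c (by omega) hc
  · intro a d ha had
    exact hsand a d ha (fun h => by omega) (fun _ => bz _ _ (by omega))

/-- **Surjectivity of the first operator on the leading terms.** -/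
theorem lead_h_surj [Module.Finite K V] (SA : Sub gr m h e A c₀) {p c : ℕ} (hp : p ≤ m)
    (hc : c ≤ p) (hc₀ : c₀ ≤ m - p + c) {y : V}
    (hy : y ∈ A (p + c)) (hyb : y ∈ below P (p + 1)) :
    ∃ x ∈ A (p - c), x ∈ below P (p + 1) ∧ proj S.iP p ((h ^ c) x) = proj S.iP p y := by
  obtain ⟨f1, -, f3⟩ := lead_ranks S SA _ hc₀ (m - p) c (by omega) le_rfl
  have f4 := f3 (by omega)
  rw [show m - (m - p) = p by omega] at f1 f4
  obtain ⟨v, hv, hvy⟩ := surj_of_finrank (f := h ^ c) (S := lead S.iP A p (p - c))
    (T := lead S.iP A p (p + c))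
    (by
      intro x hx
      have := h_pow_lead S SA c hx
      rwa [show p - c + 2 * c = p + c by omega] at this)
    (by
      intro x hx h0
      apply (S.hl p (p - c) (by omega)).1 x (lead_le S SA _ _ hx)
      rw [show p - (p - c) = c by omega]
      exact h0)
    (f4.trans f1.symm) (proj S.iP p y) ⟨y, ⟨hy, hyb⟩, rfl⟩
  obtain ⟨x, ⟨hx, hxb⟩, rfl⟩ := hv
  exact ⟨x, hx, hxb, by rw [← S.pow_h_projP, hvy]⟩

/-- **Surjectivity of the second operator on the leading terms.** -/
theorem lead_top_surj [Module.Finite K V] (SA : Sub gr m h e A c₀) {s d : ℕ} (hs : s ≤ m)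
    (hd : d ≤ m - s) (hc₀ : c₀ ≤ s + d) {y : V} (hy : y ∈ A (m + s - d))
    (hyb : y ∈ below P (m + s + 1)) :
    ∃ x ∈ A (m - s - d), x ∈ below P (m - s + 1) ∧
      proj S.iP (m + s) ((e ^ s) x) = proj S.iP (m + s) y := by
  obtain ⟨-, f2, f3⟩ := lead_ranks S SA _ hc₀ s d hs le_rfl
  obtain ⟨v, hv, hvy⟩ := surj_of_finrank (f := top S.iP m e ^ s)
    (S := lead S.iP A (m - s) (m - s - d)) (T := lead S.iP A (m + s) (m + s - d))
    (by
      intro x hx
      have := top_pow_lead S SA s hx
      rwa [show m - s + 2 * s = m + s by omega,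
        show m - s - d + 2 * s = m + s - d by omega] at this)
    (by
      intro x hx h0
      apply (S.rl (m - s) (by omega)).1 x (lead_le S SA _ _ hx).1
      rw [show m - (m - s) = s by omega]
      exact h0)
    ((f3 hd).trans (f2 (by omega)).symm) (proj S.iP (m + s) y) ⟨y, ⟨hy, hyb⟩, rfl⟩
  obtain ⟨x, ⟨hx, hxb⟩, rfl⟩ := hv
  refine ⟨x, hx, hxb, ?_⟩
  rw [← hvy, top_pow_eq S s hxb, show m - s + 2 * s = m + s by omega]

end Main

end Pool.Agent.N190.FE
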